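import Pool.Agent.H89.CSD.Shear
import Pool.Agent.H46.Integral

/-!
# An exception-free form of the conjecture of Cassels and Swinnerton-Dyer

Proof sketch.  If the product `F` of the rows of `g` is bounded below by `c |det g|` and is not
proportional to an integral form then the returns of a regular diagonal flow to a compact set of
bases (Mahler) give matrices `y`, `(1 + E) y` in the orbit, with `E` small and not diagonal.  If
`E k l` is its largest entry off the diagonal then the diagonal matrix with entries
`|E k l| ^ (-1/2)` at `k`, `|E k l| ^ (1/2)` at `l` and `1` elsewhere takes this displacement to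
one which is close to the elementary matrix with the entry `±1` at `k l`; in the limit we get a
shear.  Conversely two integral forms with positive minimum do not differ by a shear.
-/

namespace Pool.Agent.Results.MP_edeaa2_an.ShearPairs

open Pool.Agent.H89.CSD Matrix

/-- For every `d` and every `c > 0`: some product of `d` independent real linear forms which is not
proportional to an integral form has normalised minimum at least `c` if and only if there are
independent real linear forms `l_1, ..., l_d` and `k ≠ l` such that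
`∏ i ≠ k, |l_i x| * min |l_k x| |l_k x + l_l x|` is at least `c |det|` at all nonzero integer
vectors. -/
theorem result : ∀ (d : ℕ) (c : ℝ), 0 < c →
    ((∃ g : Matrix (Fin d) (Fin d) ℝ, g.det ≠ 0 ∧
        (¬ ∃ κ : ℝ, κ ≠ 0 ∧ ∀ m : Fin d →₀ ℕ, ∃ z : ℤ,
          MvPolynomial.coeff m (κ • (∏ i : Fin d, ∑ j : Fin d,
            MvPolynomial.C (g i j) * MvPolynomial.X j : MvPolynomial (Fin d) ℝ)) = (z : ℝ)) ∧
        ∀ x : Fin d → ℤ, x ≠ 0 → c * |g.det| ≤ |∏ i : Fin d, ∑ j : Fin d, g i j * (x j : ℝ)|) ↔
      (∃ g : Matrix (Fin d) (Fin d) ℝ, g.det ≠ 0 ∧ ∃ k l : Fin d, k ≠ l ∧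
        ∀ x : Fin d → ℤ, x ≠ 0 → c * |g.det| ≤
          (∏ i ∈ Finset.univ.erase k, |∑ j : Fin d, g i j * (x j : ℝ)|) *
            min |∑ j : Fin d, g k j * (x j : ℝ)|
              |(∑ j : Fin d, g k j * (x j : ℝ)) + ∑ j : Fin d, g l j * (x j : ℝ)|)) := by
  intro d c hc
  have hP : ∀ (g : Matrix (Fin d) (Fin d) ℝ) (k : Fin d) (x : Fin d → ℤ), |P g (ic x)| =
      (∏ i ∈ Finset.univ.erase k, |∑ j : Fin d, g i j * (x j : ℝ)|) *
        |∑ j : Fin d, g k j * (x j : ℝ)| := by
    intro g k x
    rw [P_eq, Finset.abs_prod, ← Finset.mul_prod_erase _ _ (Finset.mem_univ k), mul_comm]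
    rfl
  have hS : ∀ (g : Matrix (Fin d) (Fin d) ℝ) (k l : Fin d) (x : Fin d → ℤ),
      |P ((1 + Matrix.single k l 1) * g) (ic x)| =
      (∏ i ∈ Finset.univ.erase k, |∑ j : Fin d, g i j * (x j : ℝ)|) *
        |(∑ j : Fin d, g k j * (x j : ℝ)) + ∑ j : Fin d, g l j * (x j : ℝ)| := by
    intro g k l x
    rw [P_eq, Finset.abs_prod, ← Finset.mul_prod_erase _ _ (Finset.mem_univ k), mul_comm,
      shear_mulVec_eq, one_mul]
    congr 1
    apply Finset.prod_congr rfl
    intro i hi
    rw [shear_mulVec_ne (Finset.ne_of_mem_erase hi)]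
    rfl
  constructor
  · rintro ⟨g, hg, hni, hmin⟩
    have hc' : 0 < c * |g.det| := mul_pos hc (abs_pos.2 hg)
    have hpos : Pos (c * |g.det|) g := hmin
    have hnT : ¬ HasT g := by
      rintro ⟨T, lam, hlam, hT⟩
      exact hni (Pool.Agent.H46.integral_of_eigen d g hg T lam hlam hT)
    obtain ⟨k, l, s, w, hkl, hs, hwdet, hw1, hw2⟩ := shear_of_not_hasT hc' hg hpos hnT
    have hss : s * s = 1 := by
      rw [← abs_mul_abs_self, hs, one_mul]
    set a : Fin d → ℝ := Function.update 1 l s with ha
    have hal : a l = s := by simp [ha]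
    have hai : ∀ i, i ≠ l → a i = 1 := fun i hi => by simp [ha, hi]
    have hprod : ∏ i, a i = s := by
      rw [← Finset.mul_prod_erase _ _ (Finset.mem_univ l), hal,
        Finset.prod_eq_one (fun i hi => hai i (Finset.ne_of_mem_erase hi)), mul_one]
    set w' : Matrix (Fin d) (Fin d) ℝ := diagonal a * w with hw'
    have hw'det : |w'.det| = |g.det| := by
      rw [hw', Matrix.det_mul, Matrix.det_diagonal, hprod, abs_mul, hs, one_mul, hwdet]
    have hw'1 : Pos (c * |g.det|) w' := hw1.diag_mul (by rw [hprod, hs])
    have hsh : (1 + Matrix.single k l 1) * w' = diagonal a * ((1 + Matrix.single k l s) * w) := by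
      ext i j
      by_cases hik : i = k
      · subst hik
        have h1 := congrFun (shear_row_eq (g := w') (k := i) (l := l) (s := 1)) j
        have h2 := congrFun (shear_row_eq (g := w) (k := i) (l := l) (s := s)) j
        rw [h1, Matrix.diagonal_mul, h2, hai i hkl]
        simp only [hw', Pi.add_apply, Pi.smul_apply, smul_eq_mul, Matrix.diagonal_mul, hai i hkl,
          hal, one_mul]
      · have h1 := congrFun (shear_row_ne (g := w') (k := k) (l := l) (s := 1) hik) j
        have h2 := congrFun (shear_row_ne (g := w) (k := k) (l := l) (s := s) hik) j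
        rw [h1, Matrix.diagonal_mul, h2, hw', Matrix.diagonal_mul]
    have hw'2 : Pos (c * |g.det|) ((1 + Matrix.single k l 1) * w') := by
      rw [hsh]
      exact hw2.diag_mul (by rw [hprod, hs])
    refine ⟨w', ?_, k, l, hkl, ?_⟩
    · intro h
      rw [h, abs_zero] at hw'det
      exact hg (abs_eq_zero.1 hw'det.symm)
    · intro x hx
      rw [hw'det]
      have h1 := hw'1 x hx
      have h2 := hw'2 x hx
      rw [hP w' k x] at h1
      rw [hS w' k l x] at h2
      rw [mul_min_of_nonneg _ _ (Finset.prod_nonneg fun i _ => abs_nonneg _)]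
      exact le_min h1 h2
  · rintro ⟨g, hg, k, l, hkl, hmin⟩
    have hc' : 0 < c * |g.det| := mul_pos hc (abs_pos.2 hg)
    have hnn : ∀ x : Fin d → ℤ,
        0 ≤ ∏ i ∈ Finset.univ.erase k, |∑ j : Fin d, g i j * (x j : ℝ)| := fun x =>
      Finset.prod_nonneg fun i _ => abs_nonneg _
    have hp1 : Pos (c * |g.det|) g := by
      intro x hx
      rw [hP g k x]
      exact (hmin x hx).trans (mul_le_mul_of_nonneg_left (min_le_left _ _) (hnn x))
    have hp2 : Pos (c * |g.det|) ((1 + Matrix.single k l 1) * g) := by
      intro x hx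
      rw [hS g k l x]
      exact (hmin x hx).trans (mul_le_mul_of_nonneg_left (min_le_right _ _) (hnn x))
    have hdet : ((1 + Matrix.single k l (1 : ℝ)) * g).det = g.det := by
      have h1 : (1 + Matrix.single k l (1 : ℝ)) * g = g.updateRow k (g k + g l) := by
        ext i j
        by_cases hik : i = k
        · subst hik
          have h1 := congrFun (shear_row_eq (g := g) (k := i) (l := l) (s := 1)) j
          rw [h1, Matrix.updateRow_self, one_smul]
        · have h1 := congrFun (shear_row_ne (g := g) (k := k) (l := l) (s := 1) hik) j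
          rw [h1, Matrix.updateRow_ne hik]
      rw [h1, Matrix.det_updateRow_add_self _ hkl]
    by_cases hi1 : IntForm g
    · by_cases hi2 : IntForm ((1 + Matrix.single k l (1 : ℝ)) * g)
      · exact (no_shear hc' hg hp1 hkl one_ne_zero (hasT_of_intForm hc' hg hp1 hi1)
          (hasT_of_intForm hc' (by rwa [hdet]) hp2 hi2)).elim
      · exact ⟨_, by rwa [hdet], hi2, by rw [hdet]; exact hp2⟩
    · exact ⟨g, hg, hi1, hp1⟩

end Pool.Agent.Results.MP_edeaa2_an.ShearPairs
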