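import Pool.Agent.H89.CSD.DichMain

/-!
# Finitely many or uncountably many products with a given lower bound

Proof sketch.  Matrices are considered with the left action of the positive diagonal matrices of
determinant one and the right action of `GL_d(Z)`; the matrices of determinant `±1` whose product
is bounded below by `c` form a closed invariant set which is compact modulo `GL_d(Z)` (Mahler).  A
product which is proportional to an integral form is isolated in it (a nearby one, magnified by
the diagonal group, gives a shear of an integral form which shares a factor with it and so is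
integral, by Dirichlet's unit theorem, which is impossible).  So the others form a closed set.  If
it is empty, compactness gives finitely many classes.  Otherwise it has a minimal closed invariant
subset.  If there were only countably many classes then by Baire's theorem one orbit in the minimal
set would be locally alone, so the returns of a regular diagonal flow would differ by diagonal
matrices, and the product would be integral.
-/

namespace Pool.Agent.Results.MP_edeaa2_an.FiniteOrUncountable

open Pool.Agent.H89.CSD Matrix Filter Topology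

/-- The rows of `g` are independent linear forms whose product is at least `c |det g|` in absolute
value at all nonzero integer vectors. -/
def AtLeast {d : ℕ} (c : ℝ) (g : Matrix (Fin d) (Fin d) ℝ) : Prop :=
  g.det ≠ 0 ∧ ∀ x : Fin d → ℤ, x ≠ 0 →
    c * |g.det| ≤ |∏ i : Fin d, ∑ j : Fin d, g i j * (x j : ℝ)|

/-- The product of the linear forms given by the rows of `g` is a nonzero real multiple of a form
with integer coefficients. -/
def Integral {d : ℕ} (g : Matrix (Fin d) (Fin d) ℝ) : Prop :=
  ∃ κ : ℝ, κ ≠ 0 ∧ ∀ m : Fin d →₀ ℕ, ∃ z : ℤ,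
    MvPolynomial.coeff m (κ • (∏ i : Fin d, ∑ j : Fin d,
      MvPolynomial.C (g i j) * MvPolynomial.X j : MvPolynomial (Fin d) ℝ)) = (z : ℝ)

/-- The products given by `g` and by `h` differ by an integral unimodular change of variables and a
nonzero real factor. -/
def Equivalent {d : ℕ} (g h : Matrix (Fin d) (Fin d) ℝ) : Prop :=
  ∃ (U : (Matrix (Fin d) (Fin d) ℤ)ˣ) (κ : ℝ), κ ≠ 0 ∧ ∀ x : Fin d → ℝ,
    ∏ i : Fin d, ∑ j : Fin d, g i j * x j =
      κ * ∏ i : Fin d, ∑ j : Fin d, h i j *
        ∑ k : Fin d, ((U : Matrix (Fin d) (Fin d) ℤ) j k : ℝ) * x k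

/-- For every `d ≥ 3` and every `c > 0`, the products of `d` independent real linear forms in `d`
variables with normalised minimum at least `c` either fall into finitely many classes, and then they
are all proportional to integral forms, or the ones not proportional to an integral form fall into
uncountably many classes. -/
theorem result : ∀ d : ℕ, 3 ≤ d → ∀ c : ℝ, 0 < c →
    (∃ S : Finset (Matrix (Fin d) (Fin d) ℝ), (∀ h ∈ S, AtLeast c h) ∧
      ∀ g : Matrix (Fin d) (Fin d) ℝ, AtLeast c g →
        Integral g ∧ ∃ h ∈ S, Equivalent g h) ∨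
      (∀ S : ℕ → Matrix (Fin d) (Fin d) ℝ, ∃ g : Matrix (Fin d) (Fin d) ℝ, AtLeast c g ∧
        ¬ Integral g ∧ ∀ n, ¬ Equivalent g (S n)) := by
  classical
  intro d hd c hc
  by_cases hN : (NN d c).Nonempty
  · right
    intro S
    by_contra hcon
    push Not at hcon
    obtain ⟨Y, hY⟩ := exists_minimal_fam hc (N := NN d c) (fun z hz => hz.1)
      (isClosed_NN hd hc) hN (inv_NN c)
    obtain ⟨hYN, hYc, hYne, hYi⟩ := hY.prop
    have hcount : Countable ((Matrix (Fin d) (Fin d) ℤ)ˣ) := by
      have h1 : Countable (Matrix (Fin d) (Fin d) ℤ) :=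
        inferInstanceAs (Countable (Fin d → Fin d → ℤ))
      exact Function.Injective.countable (f := fun U : (Matrix (Fin d) (Fin d) ℤ)ˣ =>
        (U : Matrix (Fin d) (Fin d) ℤ)) (fun a b h => Units.ext h)
    obtain ⟨y0, hy0, hloc⟩ := baire_local (ι := ℕ × (Matrix (Fin d) (Fin d) ℤ)ˣ) hYc hYne
      (fun y hy => XX.det_ne (hYN hy).1)
      (fun n x => P (S n.1) (im (n.2 : Matrix (Fin d) (Fin d) ℤ) *ᵥ x)) (by
        intro y hy
        have hyN := hYN hy
        have h1 : AtLeast c y := by
          refine ⟨XX.det_ne hyN.1, fun x hx => ?_⟩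
          rw [hyN.1.1, mul_one]
          exact hyN.1.2 x hx
        have h2 : ¬ Integral y := fun h =>
          hyN.2 (hasT_of_intForm hc (XX.det_ne hyN.1) hyN.1.2 h)
        obtain ⟨n, U, κ, hκ, h⟩ := hcon y h1 h2
        exact ⟨(n, U), κ, hκ, h⟩)
    exact (hYN hy0).2 (hasT_of_minimal hc (fun z hz => hz.1) hY hy0 hloc)
  · left
    have hall : ∀ z ∈ XX d c, HasT z := by
      intro z hz
      by_contra h
      exact hN ⟨z, hz, h⟩
    obtain ⟨R, hR0, hR⟩ := mahler d (min c 1) 1 1 (lt_min hc one_pos) one_pos zero_le_one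
    have hC : IsCompact (KK d R 1 1 ∩ {z | Pos c z}) := (isCompact_KK R 1 1).inter_right
      (isClosed_pos c)
    have hCX : ∀ z ∈ KK d R 1 1 ∩ {z | Pos c z}, z ∈ XX d c := fun z hz =>
      ⟨le_antisymm hz.1.2.2 hz.1.2.1, hz.2⟩
    obtain ⟨t, ht⟩ := hC.elim_nhds_subcover'
      (fun z _ => {z' | Pos c z' → ∃ e : Fin d → ℝ, z' = diagonal e * z}) (by
        intro z hz
        have h1 := hCX z hz
        exact eventually_inf_principal.1 (isolation hd hc (XX.det_ne h1) h1.2
          ((hall z h1).intForm (XX.det_ne h1))))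
    refine ⟨Finset.image Subtype.val t, ?_, fun g hg => ?_⟩
    · intro h hh
      obtain ⟨z, -, rfl⟩ := Finset.mem_image.1 hh
      have h1 := hCX z.1 z.2
      refine ⟨XX.det_ne h1, fun x hx => ?_⟩
      rw [h1.1, mul_one]
      exact h1.2 x hx
    obtain ⟨hg0, hgm⟩ := hg
    have hdg : 0 < |g.det| := abs_pos.2 hg0
    set i0 : Fin d := ⟨0, by omega⟩ with hi0
    set b : Fin d → ℝ := Function.update 1 i0 |g.det|⁻¹ with hb
    have hbprod : ∏ i, b i = |g.det|⁻¹ := by
      rw [← Finset.mul_prod_erase _ _ (Finset.mem_univ i0)]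
      rw [Finset.prod_eq_one (fun i hi => by simp [hb, Finset.ne_of_mem_erase hi]), mul_one]
      simp [hb]
    have hbne : ∀ i, b i ≠ 0 := by
      intro i
      have h1 : ∏ i, b i ≠ 0 := by
        rw [hbprod]
        exact inv_ne_zero hdg.ne'
      exact Finset.prod_ne_zero_iff.1 h1 i (Finset.mem_univ i)
    set g' : Matrix (Fin d) (Fin d) ℝ := diagonal b * g with hg'
    have hg'det : |g'.det| = 1 := by
      rw [hg', Matrix.det_mul, Matrix.det_diagonal, hbprod, abs_mul, abs_inv, abs_abs,
        inv_mul_cancel₀ hdg.ne']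
    have hg'P : ∀ x, P g' x = |g.det|⁻¹ * P g x := by
      intro x
      rw [hg', P_diag_mul, hbprod]
    have hg'pos : Pos c g' := by
      intro x hx
      rw [hg'P, abs_mul, abs_inv, abs_abs, inv_mul_eq_div, le_div_iff₀ hdg]
      exact hgm x hx
    have hg'X : g' ∈ XX d c := ⟨hg'det, hg'pos⟩
    have hgT : HasT g := by
      have h1 := hasT_diag (hall g' hg'X) (fun i => (b i)⁻¹)
      have h2 : diagonal (fun i => (b i)⁻¹) * g' = g := by
        rw [hg', ← Matrix.mul_assoc, Matrix.diagonal_mul_diagonal]
        have h3 : (fun i => (b i)⁻¹ * b i) = fun _ => (1 : ℝ) := by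
          ext i
          exact inv_mul_cancel₀ (hbne i)
        rw [h3, Matrix.diagonal_one, Matrix.one_mul]
      rwa [h2] at h1
    refine ⟨hgT.intForm hg0, ?_⟩
    obtain ⟨U, hU⟩ := hR g' hg'det.ge hg'det.le (fun x hx => hg'pos.short hx)
    have hmem : g' * im (U : Matrix (Fin d) (Fin d) ℤ) ∈ KK d R 1 1 ∩ {z | Pos c z} := by
      have h1 : |(g' * im (U : Matrix (Fin d) (Fin d) ℤ)).det| = 1 := by
        rw [Matrix.det_mul, abs_mul, abs_det_im_unit, mul_one, hg'det]
      exact ⟨⟨hU, h1.ge, h1.le⟩, hg'pos.mul_im (det_unit_ne U)⟩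
    obtain ⟨z, hz, hz2⟩ := Set.mem_iUnion₂.1 (ht hmem)
    obtain ⟨e, he⟩ := hz2 hmem.2
    have heprod : ∏ i, e i ≠ 0 := by
      have h1 : (diagonal e * (z : Matrix (Fin d) (Fin d) ℝ)).det ≠ 0 := by
        rw [← he, Matrix.det_mul]
        apply mul_ne_zero
        · intro h
          rw [h, abs_zero] at hg'det
          exact zero_ne_one hg'det
        · rw [det_im]
          exact_mod_cast det_unit_ne U
      rw [Matrix.det_mul, Matrix.det_diagonal] at h1
      exact left_ne_zero_of_mul h1
    refine ⟨z, Finset.mem_image.2 ⟨z, hz, rfl⟩, U⁻¹, |g.det| * ∏ i, e i,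
      mul_ne_zero hdg.ne' heprod, fun x => ?_⟩
    have h1 : P g x = |g.det| * P g' x := by
      rw [hg'P, mul_inv_cancel_left₀ hdg.ne']
    have h2 : P g' x = P (g' * im (U : Matrix (Fin d) (Fin d) ℤ))
        (im ((U⁻¹ : (Matrix (Fin d) (Fin d) ℤ)ˣ) : Matrix (Fin d) (Fin d) ℤ) *ᵥ x) := by
      conv_rhs => rw [P_mul, Matrix.mulVec_mulVec, ← im_mul, Units.mul_inv, im_one,
        Matrix.one_mulVec]
    change P g x = _
    rw [h1, h2, he, P_diag_mul, mul_assoc]
    rfl

end Pool.Agent.Results.MP_edeaa2_an.FiniteOrUncountable
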